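import Pool.Agent.Lib.LPX.Rate
import Pool.Agent.Lib.LPX.RateUp
import Pool.Agent.Lib.LPX.RateDens

/-!
MP_ef2672, Q1: an improvement of the Kabatianskii-Levenshtein bound, for all packings of congruent
balls and for lattices, with a rate: `Δ_n ≤ 2 ^ (-(κ n)) * exp (C √n log n)` with
`κ = log₂ (2 π / e) / 2 = 0.604...`, and `γ_n ≤ n / π² + C √n log n` (`1 / π² = 0.10132...`).
-/

namespace Pool.Agent.Results.MP_ef2672_gt.AsymptoticUpperBound

open Filter Real Pool.Agent.Lib.MP_ef2672_gt_Tauber Pool.Agent.Lib.KL.Pack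

theorem result :
    (∃ C : ℝ, ∀ n : ℕ, 2 ≤ n →
      Delta n ≤ (2 : ℝ) ^ (-(logb 2 (2 * π / exp 1) / 2 * n)) * exp (C * √n * log n) ∧
      ∀ A : Matrix (Fin n) (Fin n) ℝ, A.det ≠ 0 → inv A ≤ n / π ^ 2 + C * √n * log n) ∧
    (0.604 : ℝ) < logb 2 (2 * π / exp 1) / 2 ∧
    limsup (fun n : ℕ => gamma n / n) atTop ≤ 1 / π ^ 2 := by
  refine ⟨?_, exponent_gt, Pool.Agent.KL.main_limsup.1⟩
  obtain ⟨C, hC⟩ := Pool.Agent.LPX.rate_comb Pool.Agent.LPX.upper_rate Pool.Agent.LPX.rate_dens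
    Pool.Agent.LPX.rate_vol
  refine ⟨C, fun n hn => ?_⟩
  obtain ⟨-, h2, h3⟩ := hC n hn
  exact ⟨h3, fun A hA => (inv_le_gamma (by omega) A hA).trans h2⟩

end Pool.Agent.Results.MP_ef2672_gt.AsymptoticUpperBound
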