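import Pool.Agent.Lib.BLE.Main
import Pool.Agent.Lib.BLE.Dens

/-!
MP_ef2672, Q1: Hermite's constant and the density of lattice packings are asymptotically strictly
below the limit `1 / π²` of the linear programming bound, with an explicit constant.
-/

namespace Pool.Agent.Results.MP_ef2672_gt.BeyondLP

open Filter Real MeasureTheory Metric Pool.Agent.Lib.MP_ef2672_gt_Tauber

theorem result :
    limsup (fun n : ℕ => gamma n / n) atTop ≤ 1 / π ^ 2 - 1 / 10 ^ 27 ∧
      ∀ᶠ n : ℕ in atTop,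
        (∀ A : Matrix (Fin n) (Fin n) ℝ, A.det ≠ 0 → inv A ≤ (1 / π ^ 2 - 1 / 10 ^ 27) * n) ∧
        volume.real (ball (0 : EuclideanSpace ℝ (Fin n)) 1) * (gamma n / 4) ^ ((n : ℝ) / 2) ≤
          (2 : ℝ) ^ (-((logb 2 (2 * π / exp 1) / 2 + 7 / 10 ^ 27) * n)) := by
  obtain ⟨h1, h2⟩ := Pool.Agent.BLE.main
  refine ⟨h1, ?_⟩
  filter_upwards [h2, eventually_gt_atTop 0, Pool.Agent.BLE.dens h2] with n hn hn0 hd
  refine ⟨fun A hA => ?_, hd⟩
  have h0 : (0 : ℝ) < n := by exact_mod_cast hn0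
  refine (inv_le_gamma (by omega) A hA).trans ?_
  rwa [c, div_le_iff₀ h0] at hn

end Pool.Agent.Results.MP_ef2672_gt.BeyondLP
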