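import Pool.Agent.Lib.KPT.Final
import Pool.Agent.Lib.KPT.Barrier
import Pool.Agent.Lib.KPT.FromLP
import Pool.Agent.Lib.KPT.Gamma
import Pool.Agent.Lib.KPT.GridCount
import Pool.Agent.Lib.KPT.GridSum
import Pool.Agent.Lib.KPT.Kirk
import Pool.Agent.Lib.KPT.Pair
import Pool.Agent.Lib.KPT.Relaxed
import Pool.Agent.Lib.KPT.Schur
import Pool.Agent.Lib.KPT.Separate
import Pool.Agent.Lib.KPT.Smooth
import Pool.Agent.Lib.KPT.Sound
import Pool.Agent.Lib.KPT.Tail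
import Pool.Agent.Lib.KPT.Translate
import Pool.Agent.Lib.KPT.Weak

/-!
MP_ef2672, Q1: the k-point semidefinite bounds for Hermite's constant `γ_N`, for all `k` up to
`e ^ (o(N))`, are asymptotic to `N / π²`, as is the linear programming bound.
-/

namespace Pool.Agent.Results.MP_ef2672_gt.KPointLimit

open Filter Topology Real Pool.Agent.Lib.MP_ef2672_gt_Tauber Pool.Agent.LPX Pool.Agent.KPT

theorem result :
    (∀ k N : ℕ, 2 ≤ k → 0 < N →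
      (∀ t : ℝ, IsBound k N t → gamma N ≤ t) ∧ kpt (k + 1) N ≤ kpt k N ∧ kpt k N ≤ lp N) ∧
    (∀ ε : ℝ, 0 < ε → ∃ δ : ℝ, 0 < δ ∧ ∀ᶠ N : ℕ in atTop, ∀ k : ℕ, 2 ≤ k →
      (k : ℝ) ≤ exp (δ * N) →
        (∀ t : ℝ, IsBound k N t → (1 / π ^ 2 - ε) * N ≤ t) ∧
        ∃ t : ℝ, IsBound k N t ∧ t ≤ (1 / π ^ 2 + ε) * N) ∧
    (∀ k : ℕ → ℕ, (∀ N, 2 ≤ k N) → Tendsto (fun N : ℕ => log (k N) / N) atTop (𝓝 0) →
      Tendsto (fun N : ℕ => kpt (k N) N / N) atTop (𝓝 (1 / π ^ 2))) ∧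
    Tendsto (fun N : ℕ => lp N / N) atTop (𝓝 (1 / π ^ 2)) := by
  have h5 : K5 := k5 k1 k1b
  have h7 : K7 := k7 h5 k6
  have h4 : K4 := k4 k1 k1b k2 k3
  have h11 : K11 := k11 k8 k9 k10a k10b k10c
  have h13 : K13 := k13 h4 h5 k6 h11 k12
  refine ⟨fun k N hk hN => ⟨fun t ht => gamma_le_bound h7 hN hk ht,
    kpt_succ_le k1b h5 k14 hN hk, kpt_le_lp h5 k14 hN hk⟩, fun ε hε => uniform h5 h13 k14 hε,
    fun k hk hlog => kpt_tendsto h5 h13 k14 hk hlog, lpx8⟩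

end Pool.Agent.Results.MP_ef2672_gt.KPointLimit
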