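import Pool.Agent.Lib.SH.Main
import Pool.Agent.Lib.SH.Assemble2
import Pool.Agent.Lib.SH.Mult2

/-!
MP_ef2672, Q1: the number of short vectors of a lattice: lattices with nearly the largest invariant
have at every radius at least as many vectors as a random lattice, and Hermite's constant is
asymptotic to n / (2 π e) if and only if some of them have no more at the radii below √3.3 times
the shortest length; an upper bound for the number of short vectors of all lattices.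
-/

set_option autoImplicit false

namespace Pool.Agent.Results.MP_ef2672_gt.ShellCounts

open Pool.Agent.Lib.MP_ef2672_gt_Tauber Pool.Agent.Lib.EF_h73
open MeasureTheory Filter Topology

theorem result :
    (∀ n : ℕ, 1 ≤ n → ∀ A : Matrix (Fin n) (Fin n) ℝ, A.det ≠ 0 → ∀ s : ℝ, 0 < s →
      s * inv A ≤ gamma n * (max 1 (nShort A (s * minSq A) : ℝ)) ^ ((2 : ℝ) / n) ∧
      ∀ ε : ℝ, (1 - ε) * gamma n ≤ inv A → 1 < (1 - ε) * s →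
        ((1 - ε) * s) ^ ((n : ℝ) / 2) ≤ (nShort A (s * minSq A) : ℝ)) ∧
    (∀ ε S : ℝ, 0 < ε → 1 ≤ S → ∀ᶠ n : ℕ in atTop, ∀ A : Matrix (Fin n) (Fin n) ℝ, A.det ≠ 0 →
      ∀ s : ℝ, 1 ≤ s → s ≤ S →
        ({w : Fin n → ℤ | w ≠ 0 ∧ normSq A w ≤ s * minSq A}.ncard : ℝ) ≤
          (2 * Real.exp 1 / Real.pi * s) ^ ((n : ℝ) / 2) * Real.exp (ε * n)) ∧
    (∀ᶠ n : ℕ in atTop, ∀ A : Matrix (Fin n) (Fin n) ℝ, A.det ≠ 0 →
      ({w : Fin n → ℤ | w ≠ 0 ∧ normSq A w = minSq A}.ncard : ℝ) ≤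
        (2 : ℝ) ^ (0.3957 * (n : ℝ))) ∧
    (∀ ε : ℝ, 0 < ε → ∃ δ : ℝ, 0 < δ ∧ ∀ᶠ n : ℕ in atTop, ∀ A : Matrix (Fin n) (Fin n) ℝ,
      A.det ≠ 0 → (∀ s : ℝ, 1 ≤ s → s < 3.3 →
        (nShort A (s * minSq A) : ℝ) ≤ (4 / (4 - s)) ^ ((n : ℝ) / 2) * Real.exp (δ * n)) →
      inv A ≤ (c0 + ε) * n) ∧
    (Tendsto c atTop (𝓝 c0) ↔ ∀ ε : ℝ, 0 < ε → ∀ᶠ n : ℕ in atTop,
      ∃ A : Matrix (Fin n) (Fin n) ℝ, A.det ≠ 0 ∧ (1 - ε) * gamma n ≤ inv A ∧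
        ∀ s : ℝ, 1 ≤ s → s < 3.3 →
          (nShort A (s * minSq A) : ℝ) ≤ s ^ ((n : ℝ) / 2) * Real.exp (ε * n)) :=
  ⟨fun n hn A hA s hs => ⟨Pool.Agent.SH.mult_gamma n hn A hA s,
    fun ε => Pool.Agent.SH.near_opt n hn A hA ε s hs⟩,
    Pool.Agent.SH.assemble2 Pool.Agent.SH.up8⟩

end Pool.Agent.Results.MP_ef2672_gt.ShellCounts
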